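import Mathlib
import Pool.Agent.Helper35.AG.Arcs
import Pool.Agent.Helper35.AG.PartF
import Pool.Agent.Helper16.SAG.PartB
import Pool.Agent.Helper35.ADD.Uni
import Pool.Agent.Helper35.ADD.Sub

/-!
# Additive growth of traces

`G` is the group generated by `x ↦ 2x`, `x ↦ 3x`, `x ↦ x + 1`, `τ` is the translation by one.
-/

set_option autoImplicit false
open scoped ComplexOrder InnerProductSpace Topology
open Filter MeasureTheory Finset Helper17.FU Helper17.FUGroup Helper91.TTT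

namespace Helper35.Kept.AdditiveGrowth

/-- normalised positive definite class functions -/
def traces (G : Subgroup (Equiv.Perm ℚ)) : Set (G → ℂ) :=
  {ψ : G → ℂ | ψ 1 = 1 ∧ (∀ g h : G, ψ (h * g * h⁻¹) = ψ g) ∧
    ∀ (s : Finset G) (c : G → ℂ), 0 ≤ ∑ i ∈ s, ∑ j ∈ s, star (c j) * c i * ψ (j⁻¹ * i)}

/-- the regular trace -/
noncomputable def reg (G : Subgroup (Equiv.Perm ℚ)) : G → ℂ :=
  Set.indicator ({1} : Set G) (fun _ => (1 : ℂ))

/-- the span of the translates of `φ` by the translations in `G`; its dimension is the conditional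
dimension of `φ` -/
def condSpan (G : Subgroup (Equiv.Perm ℚ)) (φ : G → ℂ) : Submodule ℂ (G → ℂ) :=
  Submodule.span ℂ {F : G → ℂ | ∃ n : G,
    (∃ r : ℚ, ∀ x : ℚ, (n : Equiv.Perm ℚ) x = x + r) ∧ F = fun x => φ (n * x)}

/-- `μ` is the probability measure on the circle with Fourier coefficients `φ (τ ^ m)` -/
def IsMeasureOf {G : Subgroup (Equiv.Perm ℚ)} (τ : G) (φ : G → ℂ)
    (μ : Measure (AddCircle (1 : ℝ))) : Prop :=
  IsProbabilityMeasure μ ∧ ∀ m : ℤ, ∫ x, (fourier m x : ℂ) ∂μ = φ (τ ^ m)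

/-- the arc `[i / 2 ^ K, (i + 1) / 2 ^ K)` of the circle -/
def arc (K i : ℕ) : Set (AddCircle (1 : ℝ)) :=
  (fun t : ℝ => (t : AddCircle (1 : ℝ))) '' Set.Ico ((i : ℝ) / 2 ^ K) ((i + 1) / 2 ^ K)

/-- the Shannon entropy of the partition of the circle into the `2 ^ K` dyadic arcs of length
`2 ^ (-K)` -/
noncomputable def shannon (μ : Measure (AddCircle (1 : ℝ))) (K : ℕ) : ℝ :=
  ∑ i ∈ range (2 ^ K), Real.negMulLog (μ.real (arc K i))

/-- the entropy gained at scale `2 ^ (-K)` by adding an independent variable of law `ν` to a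
variable of law `μ` -/
noncomputable def growth (μ ν : Measure (AddCircle (1 : ℝ))) (K : ℕ) : ℝ :=
  shannon (μ.conv ν) K - shannon μ K

/-- `ν` is a probability measure giving mass at most `η` to each dyadic arc of length `2 ^ (-K)` -/
def Spread (η : ℝ) (K : ℕ) (ν : Measure (AddCircle (1 : ℝ))) : Prop :=
  IsProbabilityMeasure ν ∧ ∀ i : ℕ, ν.real (arc K i) ≤ η

/-- the measure of `ψ` has no atoms -/
def Diffuse {G : Subgroup (Equiv.Perm ℚ)} (τ : G) (ψ : G → ℂ) : Prop :=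
  ∀ ν, IsMeasureOf τ ψ ν → ∀ x, ν {x} = 0

/-- **Additive growth.**  (1) For a set of traces it is equivalent that the measures of all the traces
in its closure are singular, that the entropies of its measures are sublinear in the scale, uniformly
over the set, and that the entropy of the convolution of one of its measures with an arbitrary
probability measure is asymptotically the sum of the entropies, uniformly over the set, over this
measure and over all scales; the measure of an extreme trace is singular iff the trace is not the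
regular one.  (2) A set of traces stays away from the regular trace iff its measures have infinite
additive growth, uniformly over the set, over all scales and over all spread measures added, and iff
they have uniformly positive growth.  (3) An extreme trace `φ` is the regular one as soon as, for
infinitely many scales, its measure has bounded growth under some measure which is not purely
atomic, or `φ` is a component of `φ ψ` for some diffuse trace `ψ`, or, for infinitely many scales, the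
entropy of some component of some such `φ ψ` exceeds that of `φ` by a bounded amount, or some
irrational translate of the measure of `φ` is not singular to some probability measure invariant
under multiplication by an integer at least 2.  (4) The conditional dimension of the product of an
extreme trace with a trace of large conditional dimension is more than `C` times that of the former,
uniformly away from the regular trace. -/
theorem result :
  ∀ (s2 s3 t : Equiv.Perm ℚ), (∀ x : ℚ, s2 x = 2 * x) → (∀ x : ℚ, s3 x = 3 * x) →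
  (∀ x : ℚ, t x = x + 1) →
  ∀ (G : Subgroup (Equiv.Perm ℚ)), G = Subgroup.closure {s2, s3, t} →
  ∀ τ : G, (τ : Equiv.Perm ℚ) = t →
  (∀ S : Set (G → ℂ), S ⊆ traces G → List.TFAE [
    ∀ ψ ∈ closure S, ∀ ρ, IsMeasureOf τ ψ ρ → ρ ⟂ₘ volume,
    ∀ ε : ℝ, 0 < ε → ∃ C : ℝ, ∀ φ ∈ S, ∀ μ, IsMeasureOf τ φ μ → ∀ K, shannon μ K ≤ ε * K + C,
    ∀ ε : ℝ, 0 < ε → ∃ C : ℝ, ∀ φ ∈ S, ∀ μ, IsMeasureOf τ φ μ → ∀ ν K, IsProbabilityMeasure ν →
      (1 - ε) * (shannon μ K + shannon ν K) - C ≤ shannon (μ.conv ν) K]) ∧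
  (∀ φ ∈ Set.extremePoints ℝ (traces G), ∀ μ, IsMeasureOf τ φ μ → (φ ≠ reg G ↔ μ ⟂ₘ volume)) ∧
  (∀ S : Set (G → ℂ), S ⊆ traces G → List.TFAE [
    reg G ∉ closure S,
    ∀ C : ℝ, ∃ η : ℝ, 0 < η ∧ ∀ φ ∈ S, ∀ μ, IsMeasureOf τ φ μ → ∀ ν K, Spread η K ν →
      C < growth μ ν K,
    ∃ C : ℝ, 0 < C ∧ ∃ η : ℝ, 0 < η ∧ ∀ φ ∈ S, ∀ μ, IsMeasureOf τ φ μ → ∀ ν K, Spread η K ν →
      C < growth μ ν K]) ∧
  (∀ φ ∈ Set.extremePoints ℝ (traces G), ∃ μ : Measure (AddCircle (1 : ℝ)), IsMeasureOf τ φ μ ∧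
    List.TFAE [
      φ = reg G,
      ∃ ν, IsProbabilityMeasure ν ∧ (∀ A, A.Countable → ν Aᶜ ≠ 0) ∧
        ∃ C : ℝ, ∃ᶠ K in atTop, growth μ ν K ≤ C,
      ∃ ψ ∈ traces G, ∃ χ' ∈ traces G, ∃ a : ℝ, 0 < a ∧ a ≤ 1 ∧ Diffuse τ ψ ∧
        φ * ψ = a • φ + (1 - a) • χ',
      ∃ ψ ∈ traces G, ∃ χ ∈ traces G, ∃ χ' ∈ traces G, ∃ a : ℝ, 0 < a ∧ a ≤ 1 ∧ Diffuse τ ψ ∧
        φ * ψ = a • χ + (1 - a) • χ' ∧
        ∃ lam, IsMeasureOf τ χ lam ∧ ∃ C : ℝ, ∃ᶠ K in atTop, shannon lam K - shannon μ K ≤ C,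
      ∃ u : AddCircle (1 : ℝ), addOrderOf u = 0 ∧ ∃ n ρ, 2 ≤ n ∧ IsProbabilityMeasure ρ ∧
        MeasurePreserving (fun x : AddCircle (1 : ℝ) => n • x) ρ ρ ∧
        ¬ ((μ.map fun x => x + u) ⟂ₘ ρ)]) ∧
  ∀ C : ℝ, ∀ U ∈ 𝓝 (reg G), ∃ D : ℕ, ∀ φ ∈ Set.extremePoints ℝ (traces G), ∀ ψ ∈ traces G,
    FiniteDimensional ℂ (condSpan G φ) → FiniteDimensional ℂ (condSpan G ψ) →
    D < Module.finrank ℂ (condSpan G ψ) →
    (Module.finrank ℂ (condSpan G (φ * ψ)) : ℝ) ≤ C * Module.finrank ℂ (condSpan G φ) → φ ∈ U := by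
  intro s2 s3 t h2 h3 ht G hG τ hτ
  subst hG
  have hsh : ∀ (ρ : Measure (AddCircle (1 : ℝ))) (K : ℕ), shannon ρ K = Helper35.AG.ent ρ K :=
    fun ρ K => Helper35.AG.sum_arc ρ K Real.negMulLog
  have hgr : ∀ (μ ν : Measure (AddCircle (1 : ℝ))) (K : ℕ),
      growth μ ν K = Helper35.AG.ent (Helper35.AG.conv μ ν) K - Helper35.AG.ent μ K := by
    intro μ ν K
    rw [growth, hsh, hsh]
    rfl
  have hsp : ∀ (η : ℝ) (K : ℕ) (ν : Measure (AddCircle (1 : ℝ))), Spread η K ν ↔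
      IsProbabilityMeasure ν ∧ ∀ i < 2 ^ K, ν.real {y | Helper35.AG.idx K y = i} ≤ η := by
    intro η K ν
    exact and_congr Iff.rfl (Helper35.AG.arc_le_iff ν K η)
  have hdf : ∀ ψ : GG s2 s3 t → ℂ, Diffuse τ ψ ↔ Pool.Agent.Helper97.CG.Diffuse τ ψ :=
    fun ψ => ⟨fun h ν hν hν' x => h ν ⟨hν, hν'⟩ x, fun h ν hν x => h ν hν.1 hν.2 x⟩
  refine ⟨?_, ?_, ?_, ?_, ?_⟩
  · intro S hS
    have h := Helper35.ADD.tfae_uniform h2 h3 ht hτ (S := S) hS
    simp only [hsh, IsMeasureOf, and_imp]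
    exact h
  · intro φ hφ μ hμ
    have hp := hμ.1
    exact Helper35.ADD.sing_iff h2 h3 ht hτ hφ hμ.2
  · intro S hS
    have h := Helper35.AG.tfae_set h2 h3 ht hτ (S := S) hS
    have e : ∀ C η : ℝ, (∀ φ ∈ S, ∀ μ, IsMeasureOf τ φ μ → ∀ ν K, Spread η K ν →
        C < growth μ ν K) ↔ ∀ φ ∈ S, ∀ μ : Measure (AddCircle (1 : ℝ)), IsProbabilityMeasure μ →
        (∀ n : ℤ, ∫ x, (fourier n x : ℂ) ∂μ = φ (τ ^ n)) →
        ∀ (ν : Measure (AddCircle (1 : ℝ))) (K : ℕ), IsProbabilityMeasure ν →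
        (∀ i < 2 ^ K, ν.real {y | Helper35.AG.idx K y = i} ≤ η) →
        C < Helper35.AG.ent (Helper35.AG.conv μ ν) K - Helper35.AG.ent μ K := by
      intro C η
      simp only [hgr, hsp, IsMeasureOf, and_imp]
    simp only [e]
    exact h
  · intro φ hφ
    have hφ' : φ ∈ Set.extremePoints ℝ (TR (GG s2 s3 t)) := hφ
    obtain ⟨μ, hμp, hμ, -⟩ := Helper35.AG.exists_measure h2 h3 ht hτ hφ'.1
    refine ⟨μ, ⟨hμp, hμ⟩, ?_⟩
    have h := Helper35.ADD.tfae_init (Helper35.AG.tfae_ext h2 h3 ht hτ hφ' hμ)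
    simp only [hgr, hsh, hdf, IsMeasureOf, and_assoc]
    exact h
  · intro C U hU
    exact Helper16.SAG.partB h2 h3 ht hτ C hU

end Helper35.Kept.AdditiveGrowth
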