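import Pool.Agent.Helper35.TW.ConicDom

/-!
# Conic bundles over the product of an arbitrary base and an affine space
-/

set_option autoImplicit false

namespace Helper35.Kept.ConicBundlesAnyBase

open AlgebraicGeometry CategoryTheory MvPolynomial Pool.Agent.Helper15

/-- the polynomial `y ^ 2 - (a z ^ 2 + b)` over `R[z]` -/
noncomputable def conic {R : Type} [CommRing R] (a b : R) : Polynomial (Polynomial R) :=
  Polynomial.X ^ 2 - Polynomial.C (Polynomial.C a * Polynomial.X ^ 2 + Polynomial.C b)

/-- the spectrum of the `K`-algebra `R` is potentially dense over `K` -/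
def PotDense (K R : Type) [Field K] [CommRing R] [Algebra K R] : Prop :=
  PotentiallyDense K (Spec (CommRingCat.of R)) (Spec.map (CommRingCat.ofHom (algebraMap K R)))

/-- **Conic bundles over an arbitrary base.**  Let `A` be the coordinate ring of the cone of a
projective variety over a number field `K` and `a, b` polynomials in `x 1, …, x n` over `A` such that
`a b` vanishes identically on no fibre over a point of the cone other than the vertex and all
irreducible factors of `a b` over the fraction field of `A` have degree at most three in the first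
variable occurring in them.  Then the conic bundle `y ^ 2 = a z ^ 2 + b` is potentially dense if and
only if the cone is. -/
theorem result (K : Type) [Field K] [NumberField K] (N : ℕ) (I : Ideal (MvPolynomial (Fin N) K))
    [I.IsPrime] (hI : ∀ f ∈ I, ∀ d : ℕ, homogeneousComponent d f ∈ I) (hX : ∃ k, X k ∉ I)
    (n : ℕ) (a b : MvPolynomial (Fin n) (MvPolynomial (Fin N) K ⧸ I))
    (h1 : ∃ s : ℕ, (Ideal.span (Set.range fun k => Ideal.Quotient.mk I (X k))) ^ s ≤
      Ideal.span (Set.range fun d => (a * b).coeff d))
    (h3 : ∀ P : MvPolynomial (Fin n) (FractionRing (MvPolynomial (Fin N) K ⧸ I)), Irreducible P →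
      P ∣ map (algebraMap (MvPolynomial (Fin N) K ⧸ I) (FractionRing (MvPolynomial (Fin N) K ⧸ I)))
        (a * b) → ∀ k, (∀ i < k, P.degreeOf i = 0) → P.degreeOf k ≤ 3) :
    PotDense K (AdjoinRoot (conic a b)) ↔ PotDense K (MvPolynomial (Fin N) K ⧸ I) :=
  Pool.Agent.Helper35.TW.conic_main K N I hI hX n a b h1 h3

end Helper35.Kept.ConicBundlesAnyBase
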