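import Mathlib
import Pool.Agent.Helper35.IP.MonoMain

/-!
# Independent powers of traces

`G` is the group generated by `x ↦ 2x`, `x ↦ 3x`, `x ↦ x + 1`, `τ` is the translation by one.
-/

set_option autoImplicit false
open scoped ComplexOrder InnerProductSpace Topology ComplexConjugate
open Filter MeasureTheory Finset Helper17.FU Helper17.FUGroup Helper91.TTT

namespace Helper35.Kept.IndependentPowers

/-- normalised positive definite class functions -/
def traces (G : Subgroup (Equiv.Perm ℚ)) : Set (G → ℂ) :=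
  {ψ : G → ℂ | ψ 1 = 1 ∧ (∀ g h : G, ψ (h * g * h⁻¹) = ψ g) ∧
    ∀ (s : Finset G) (c : G → ℂ), 0 ≤ ∑ i ∈ s, ∑ j ∈ s, star (c j) * c i * ψ (j⁻¹ * i)}

/-- the regular trace -/
noncomputable def reg (G : Subgroup (Equiv.Perm ℚ)) : G → ℂ :=
  Set.indicator ({1} : Set G) (fun _ => (1 : ℂ))

/-- the translations in `G` -/
def translations (G : Subgroup (Equiv.Perm ℚ)) : Set G :=
  {n : G | ∃ r : ℚ, ∀ x : ℚ, (n : Equiv.Perm ℚ) x = x + r}

/-- the span of the translates of `φ` by the translations in `G`; its dimension is the conditional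
dimension of `φ` -/
def condSpan (G : Subgroup (Equiv.Perm ℚ)) (φ : G → ℂ) : Submodule ℂ (G → ℂ) :=
  Submodule.span ℂ {F : G → ℂ | ∃ n ∈ translations G, F = fun x => φ (n * x)}

/-- the function equal to `φ` on the translations and to zero elsewhere; for a trace `φ` it is the
trace `φ ∘ E`, `E` the conditional expectation onto the C*-algebra of the translations -/
noncomputable def onTranslations (G : Subgroup (Equiv.Perm ℚ)) (φ : G → ℂ) : G → ℂ :=
  Set.indicator (translations G) φ

/-- the product of the `f i ^ a i` and of the `b i`-th powers of the complex conjugates of the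
`f i` -/
noncomputable def monomial {G : Subgroup (Equiv.Perm ℚ)} {k : ℕ} (f : Fin k → G → ℂ)
    (a b : Fin k → ℕ) : G → ℂ :=
  fun x => ∏ i, (f i x ^ a i * conj (f i x) ^ b i)

/-- the degree `a i + b i` is larger than `a' i + b' i` for all `i` for which `f i` is conditionally
infinite dimensional -/
def DegLT {G : Subgroup (Equiv.Perm ℚ)} {k : ℕ} (f : Fin k → G → ℂ) (a' b' a b : Fin k → ℕ) :
    Prop :=
  ∀ i, ¬ FiniteDimensional ℂ (condSpan G (f i)) → a' i + b' i < a i + b i

/-- `μ` is the probability measure on the circle with Fourier coefficients `φ (τ ^ m)` -/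
def IsMeasureOf {G : Subgroup (Equiv.Perm ℚ)} (τ : G) (φ : G → ℂ)
    (μ : Measure (AddCircle (1 : ℝ))) : Prop :=
  IsProbabilityMeasure μ ∧ ∀ m : ℤ, ∫ x, (fourier m x : ℂ) ∂μ = φ (τ ^ m)

/-- the functional on the C*-algebra generated by `τ` (that is, on the continuous functions on the
circle) with the values `F (τ ^ m)` has norm at most `B` -/
def NormLE {G : Subgroup (Equiv.Perm ℚ)} (τ : G) (F : G → ℂ) (B : ℝ) : Prop :=
  ∀ (s : Finset ℤ) (d : ℤ → ℂ), (∀ x : AddCircle (1 : ℝ), ‖∑ m ∈ s, d m * fourier m x‖ ≤ 1) →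
    ‖∑ m ∈ s, d m * F (τ ^ m)‖ ≤ B

/-- **Independent powers.**  Let `f 0, …, f (k - 1)` be extreme traces.  One of them is regular or
all of them are conditionally finite dimensional if and only if two different powers of their
product have measures which are not mutually singular, if and only if this holds, up to a
translation, for two monomials in them and their complex conjugates, one of them of larger degree in
every conditionally infinite dimensional variable, or some irrational translate of the measure of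
some monomial is not singular to the measure of some monomial, if and only if two monomials with
degrees as above have a common component on the translations, if and only if the powers of some
monomial of positive degree in every conditionally infinite dimensional variable do not span `ℓ¹`
isometrically in the dual of the C*-algebra generated by `τ`, if and only if this holds for the
product of all `f i`. -/
theorem result :
  ∀ (s2 s3 t : Equiv.Perm ℚ), (∀ x : ℚ, s2 x = 2 * x) → (∀ x : ℚ, s3 x = 3 * x) →
  (∀ x : ℚ, t x = x + 1) →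
  ∀ (G : Subgroup (Equiv.Perm ℚ)), G = Subgroup.closure {s2, s3, t} →
  ∀ τ : G, (τ : Equiv.Perm ℚ) = t →
  ∀ (k : ℕ) (f : Fin k → G → ℂ), (∀ i, f i ∈ Set.extremePoints ℝ (traces G)) →
    ∃ μ : (Fin k → ℕ) → (Fin k → ℕ) → Measure (AddCircle (1 : ℝ)),
      (∀ a b, IsMeasureOf τ (monomial f a b) (μ a b)) ∧
    List.TFAE [
      (∃ i, f i = reg G) ∨ ∀ i, FiniteDimensional ℂ (condSpan G (f i)),
      ∃ m n : ℕ, m < n ∧ ¬ (μ (fun _ => m) (fun _ => 0) ⟂ₘ μ (fun _ => n) (fun _ => 0)),
      ∃ (a b a' b' : Fin k → ℕ) (u : AddCircle (1 : ℝ)), (DegLT f a' b' a b ∨ addOrderOf u = 0) ∧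
        ¬ ((μ a b).map (fun x => x + u) ⟂ₘ μ a' b'),
      ∃ a b a' b' : Fin k → ℕ, DegLT f a' b' a b ∧ ∃ g ∈ traces G, ∃ g' ∈ traces G,
        ∃ g'' ∈ traces G, ∃ x y : ℝ, 0 < x ∧ x ≤ 1 ∧ 0 < y ∧ y ≤ 1 ∧
        onTranslations G (monomial f a b) = x • g + (1 - x) • g' ∧
        onTranslations G (monomial f a' b') = y • g + (1 - y) • g'',
      ∃ a b : Fin k → ℕ, DegLT f 0 0 a b ∧ ∃ (r : ℕ) (c : ℕ → ℂ) (B : ℝ),
        B < ∑ n ∈ range r, ‖c n‖ ∧ NormLE τ (∑ n ∈ range r, c n • monomial f a b ^ n) B,
      ∃ (r : ℕ) (c : ℕ → ℂ) (B : ℝ), B < ∑ n ∈ range r, ‖c n‖ ∧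
        NormLE τ (∑ n ∈ range r, c n • (∏ i, f i) ^ n) B] := by
  intro s2 s3 t h2 h3 ht G hG τ hτ
  subst hG
  intro k f hf
  have hf' : ∀ i, f i ∈ Set.extremePoints ℝ (TR (GG s2 s3 t)) := hf
  choose μ hμp hμ hμi using fun i => Helper35.AG.exists_measure h2 h3 ht hτ (hf' i).1
  have hmono : ∀ a b, monomial f a b = Helper35.IP.mono f a b := by
    intro a b
    funext x
    rw [Helper35.IP.mono_apply]
    rfl
  refine ⟨fun a b => Helper35.IP.mm μ a b, fun a b => ⟨Helper35.IP.mm_prob hμp a b, fun n => ?_⟩, ?_⟩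
  · rw [Helper35.IP.ft_mm hμp, hmono, Helper35.IP.mono_apply]
    simp only [hμ]
  · have h := Helper35.IP.monomials h2 h3 ht hτ hf' hμp hμ
    have hP : (∏ i, f i) = Helper35.IP.mono f (fun _ => 1) (fun _ => 0) := by
      funext x
      rw [Helper35.IP.mono_apply, Finset.prod_apply]
      exact Finset.prod_congr rfl fun i _ => by simp
    simp only [hP, hmono, DegLT, Pi.zero_apply, add_zero]
    exact h

end Helper35.Kept.IndependentPowers
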